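import Pool.Agent.Helper21.DN.Stmts

set_option autoImplicit false

/-! # A central element of order `p` in the last ramification group (module CENT) -/

namespace Pool.Agent.Helper21.DN

universe u

open Finset

theorem cent_le {G : Type u} [Group G] [Fintype G] (s : G → ℕ) {g : G} (hg : g ≠ 1) :
    s g ≤ x0 s := by
  classical
  unfold x0
  refine le_sup (f := s) ?_
  rw [mem_filter]
  exact ⟨mem_univ _, hg⟩

/-- the last ramification group -/
def cent_N {G : Type u} [Group G] [Fintype G] (s : G → ℕ) (hs : RF s) : Subgroup G where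
  carrier := {g | g = 1 ∨ s g = x0 s}
  one_mem' := Or.inl rfl
  mul_mem' := by
    rintro a b ha hb
    by_cases h1 : a = 1
    · rw [h1, one_mul]
      exact hb
    by_cases h2 : b = 1
    · rw [h2, mul_one]
      exact ha
    by_cases h3 : a * b = 1
    · exact Or.inl h3
    right
    have ha' := ha.resolve_left h1
    have hb' := hb.resolve_left h2
    have h4 := hs.mul a b h1 h2 h3
    rw [ha', hb', min_self] at h4
    exact le_antisymm (cent_le s h3) h4
  inv_mem' := by
    rintro a ha
    rcases ha with h | h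
    · left
      rw [h, inv_one]
    · right
      rw [hs.inv, h]

theorem cent_mem {G : Type u} [Group G] [Fintype G] {s : G → ℕ} {hs : RF s} {g : G} :
    g ∈ cent_N s hs ↔ g = 1 ∨ s g = x0 s := Iff.rfl

theorem cent_normal {G : Type u} [Group G] [Fintype G] (s : G → ℕ) (hs : RF s) :
    (cent_N s hs).Normal := by
  constructor
  intro n hn g
  rw [cent_mem] at hn ⊢
  rcases hn with h | h
  · left
    rw [h, mul_one, mul_inv_cancel]
  · right
    rw [hs.conj, h]

theorem st_CENT : ST_CENT.{u} := by
  classical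
  intro p _ G _ _ s hG hnt hs
  haveI := cent_normal s hs
  have hN : (cent_N s hs) ≠ ⊥ := by
    intro h
    obtain ⟨g, hg⟩ := exists_ne (1 : G)
    obtain ⟨z, hz0, hz1⟩ := exists_mem_eq_sup (univ.filter (fun g : G => g ≠ 1))
      ⟨g, mem_filter.2 ⟨mem_univ _, hg⟩⟩ s
    have hz : z ∈ cent_N s hs := by
      right
      rw [← hz1]
      unfold x0
      refine congrArg (fun t : Finset G => t.sup s) ?_
      ext y
      simp only [mem_filter]
    rw [h, Subgroup.mem_bot] at hz
    exact (mem_filter.1 hz0).2 hz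
  have hcard : p ∣ Nat.card (cent_N s hs) := by
    rcases (hG.to_subgroup (cent_N s hs)).card_eq_or_dvd with h | h
    · exact absurd (Subgroup.card_eq_one.1 h) hN
    · exact h
  obtain ⟨b, hb1, hb2⟩ := (hG.of_equiv ConjAct.toConjAct).exists_fixed_point_of_prime_dvd_card_of_fixed_point
    (cent_N s hs) hcard (a := 1) (fun g => smul_one g)
  have hbc : (b : G) ∈ Subgroup.center G := by
    rw [Subgroup.mem_center_iff]
    intro g
    have h := hb1 (ConjAct.toConjAct g)
    have h' := congrArg (fun y : cent_N s hs => (y : G)) h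
    simp only [ConjAct.Subgroup.val_conj_smul, ConjAct.toConjAct_smul] at h'
    rw [mul_inv_eq_iff_eq_mul] at h'
    exact h'
  have hb0 : (b : G) ≠ 1 := fun h => hb2 (Subtype.ext h.symm)
  obtain ⟨n, hn⟩ := (IsPGroup.iff_orderOf.1 hG) (b : G)
  have hn0 : n ≠ 0 := by
    rintro rfl
    rw [pow_zero, orderOf_eq_one_iff] at hn
    exact hb0 hn
  obtain ⟨k, rfl⟩ := Nat.exists_eq_succ_of_ne_zero hn0
  have hp : p.Prime := Fact.out
  have hord : orderOf ((b : G) ^ p ^ k) = p := by
    rw [orderOf_pow_of_dvd (pow_ne_zero k hp.ne_zero)]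
    · rw [hn, pow_succ, Nat.mul_div_cancel_left _ (pow_pos hp.pos k)]
    · rw [hn]
      exact pow_dvd_pow p (Nat.le_succ k)
  refine ⟨(b : G) ^ p ^ k, Subgroup.pow_mem _ hbc _, hord, ?_⟩
  have hmem : (b : G) ^ p ^ k ∈ cent_N s hs := Subgroup.pow_mem _ b.2 _
  refine (cent_mem.1 hmem).resolve_left ?_
  intro h
  rw [h, orderOf_one] at hord
  exact hp.one_lt.ne hord

end Pool.Agent.Helper21.DN
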