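import Pool.Agent.Helper21.DN.Stmts

set_option autoImplicit false

/-! # Herbrand's theorem for the last break of a quotient (module HB) -/

namespace Pool.Agent.Helper21.DN

universe u

open Finset

section

variable {G : Type u} [Group G] [Fintype G]

open scoped Classical in
/-- the elements of `J` -/
noncomputable def hb_J (J : Subgroup G) : Finset G := univ.filter (fun j => j ∈ J)

theorem hb_memJ {J : Subgroup G} {j : G} : j ∈ hb_J J ↔ j ∈ J := by
  classical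
  unfold hb_J
  rw [mem_filter]
  exact ⟨fun h => h.2, fun h => ⟨mem_univ _, h⟩⟩

open scoped Classical in
/-- the nontrivial elements of `J` -/
noncomputable def hb_J1 (J : Subgroup G) : Finset G := (hb_J J).filter (fun j => j ≠ 1)

theorem hb_memJ1 {J : Subgroup G} {j : G} : j ∈ hb_J1 J ↔ j ∈ J ∧ j ≠ 1 := by
  classical
  unfold hb_J1
  rw [mem_filter, hb_memJ]

theorem hb_cs (s : G → ℕ) (J : Subgroup G) (g : G) : cs s J g = ∑ j ∈ hb_J J, s (g * j) := rfl

/-- the order of `J` times the Herbrand function of `J` -/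
noncomputable def hb_F (s : G → ℕ) (J : Subgroup G) (u : ℝ) : ℝ :=
  u + ∑ j ∈ hb_J1 J, min (s j : ℝ) u

theorem hb_F_mono (s : G → ℕ) (J : Subgroup G) : Monotone (hb_F s J) := fun _ _ h =>
  add_le_add h (sum_le_sum fun _ _ => min_le_min le_rfl h)

open scoped Classical in
theorem hb_split (J : Subgroup G) (f : G → ℝ) :
    ∑ j ∈ hb_J J, f j = f 1 + ∑ j ∈ hb_J1 J, f j := by
  have h := sum_filter_add_sum_filter_not (hb_J J) (fun j => j ≠ 1) f
  have h1 : (hb_J J).filter (fun j => ¬ j ≠ 1) = {1} := by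
    ext j
    simp only [mem_filter, hb_memJ, not_not, mem_singleton]
    exact ⟨fun h => h.2, fun h => ⟨h ▸ J.one_mem, h⟩⟩
  rw [h1, sum_singleton] at h
  have h2 : (hb_J J).filter (fun j => j ≠ 1) = hb_J1 J := by
    ext j
    rw [mem_filter, hb_memJ, hb_memJ1]
  rw [h2] at h
  rw [← h, add_comm]

variable {Q : Type u} [Group Q]

open scoped Classical in
theorem hb_fiber (r : G →* Q) (g0 : G) (f : G → ℝ) :
    ∑ g ∈ univ.filter (fun g => r g = r g0), f g =
      ∑ j ∈ hb_J r.ker, f (g0 * j) := by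
  refine sum_nbij' (fun g => g0⁻¹ * g) (fun j => g0 * j) ?_ ?_ ?_ ?_ ?_
  · intro g hg
    rw [mem_filter] at hg
    rw [hb_memJ, MonoidHom.mem_ker, map_mul, map_inv, hg.2, inv_mul_cancel]
  · intro j hj
    rw [hb_memJ] at hj
    rw [mem_filter]
    refine ⟨mem_univ _, ?_⟩
    rw [map_mul, MonoidHom.mem_ker.1 hj, mul_one]
  · intro g _
    exact mul_inv_cancel_left g0 g
  · intro j _
    exact inv_mul_cancel_left g0 j
  · intro g _
    rw [mul_inv_cancel_left]

end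

open scoped Classical in
theorem hb_coset {G Q : Type u} [Group G] [Fintype G] [Group Q] [Fintype Q]
    (s : G → ℕ) (sQ : Q → ℕ) (r : G →* Q)
    (hs : ∀ g, r g ≠ 1 → Nat.card r.ker * sQ (r g) = cs s r.ker g) (g0 : G) (hg0 : r g0 ≠ 1)
    (h2 : ∀ h ∈ r.ker, h ≠ 1 → s (g0 * h) = min (s g0) (s h)) :
    ((Nat.card r.ker : ℝ) * (sQ (r g0) : ℝ) = hb_F s r.ker (s g0)) ∧
    ∀ u : ℝ, ∑ g ∈ univ.filter (fun g => r g = r g0), min (s g : ℝ) u =
      min ((Nat.card r.ker : ℝ) * (sQ (r g0) : ℝ)) (hb_F s r.ker u) := by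
  have h3 : (Nat.card r.ker : ℝ) * (sQ (r g0) : ℝ) = hb_F s r.ker (s g0) := by
    have h4 := hs g0 hg0
    have h5 : ((Nat.card r.ker : ℝ) * (sQ (r g0) : ℝ)) =
        ∑ j ∈ hb_J r.ker, (s (g0 * j) : ℝ) := by
      have h6 : (((Nat.card r.ker * sQ (r g0) : ℕ)) : ℝ) = ((cs s r.ker g0 : ℕ) : ℝ) := by rw [h4]
      rw [Nat.cast_mul] at h6
      rw [h6]
      rw [hb_cs, Nat.cast_sum]
    rw [h5, hb_split, mul_one]
    unfold hb_F
    congr 1
    refine sum_congr rfl fun j hj => ?_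
    rw [hb_memJ1] at hj
    rw [h2 j hj.1 hj.2, Nat.cast_min, min_comm]
  refine ⟨h3, fun u => ?_⟩
  rw [hb_fiber, hb_split, mul_one, h3, ← (hb_F_mono s r.ker).map_min]
  unfold hb_F
  congr 1
  refine sum_congr rfl fun j hj => ?_
  rw [hb_memJ1] at hj
  rw [h2 j hj.1 hj.2, Nat.cast_min, min_comm (s g0 : ℝ) (s j : ℝ), min_assoc]

open scoped Classical in
theorem hb_phi {G Q : Type u} [Group G] [Fintype G] [Group Q] [Fintype Q]
    (hC : ST_COS.{u}) (s : G → ℕ) (sQ : Q → ℕ) (r : G →* Q) (hr : Function.Surjective r)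
    (hRF : RF s)
    (hs : ∀ g, r g ≠ 1 → Nat.card r.ker * sQ (r g) = cs s r.ker g) (u : ℝ) :
    phi s u = phi sQ (hb_F s r.ker u / (Nat.card r.ker : ℝ)) := by
  have hJ0 : (0 : ℝ) < (Nat.card r.ker : ℝ) := Nat.cast_pos.2 Nat.card_pos
  have hcard : (Fintype.card G : ℝ) = (Nat.card r.ker : ℝ) * (Fintype.card Q : ℝ) := by
    have h1 := Subgroup.card_mul_index r.ker
    rw [Subgroup.index_ker, MonoidHom.range_eq_top.2 hr, Subgroup.card_top, Nat.card_eq_fintype_card,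
      Nat.card_eq_fintype_card (α := G), Nat.card_eq_fintype_card (α := Q)] at h1
    rw [← h1, Nat.cast_mul, Nat.card_eq_fintype_card]
  have h1 : ∑ g ∈ univ.filter (fun g : G => g ≠ 1), min (s g : ℝ) u =
      ∑ j ∈ hb_J1 r.ker, min (s j : ℝ) u +
      ∑ q ∈ univ.filter (fun q : Q => q ≠ 1),
        ∑ g ∈ univ.filter (fun g => r g = q), min (s g : ℝ) u := by
    rw [← sum_filter_add_sum_filter_not (univ.filter (fun g : G => g ≠ 1)) (fun g => g ∈ r.ker)]
    congr 1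
    · refine sum_congr ?_ fun _ _ => rfl
      ext g
      simp only [mem_filter, mem_univ, true_and, hb_memJ1]
      exact and_comm
    · have h2 : ∀ g ∈ (univ.filter (fun g : G => g ≠ 1)).filter (fun g => ¬ g ∈ r.ker),
          r g ∈ univ.filter (fun q : Q => q ≠ 1) := by
        intro g hg
        rw [mem_filter] at hg
        rw [mem_filter]
        exact ⟨mem_univ _, fun h => hg.2 (MonoidHom.mem_ker.2 h)⟩
      rw [← sum_fiberwise_of_maps_to h2]
      refine sum_congr rfl fun q hq => sum_congr ?_ fun _ _ => rfl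
      rw [mem_filter] at hq
      ext g
      simp only [mem_filter, mem_univ, true_and]
      constructor
      · exact fun h => h.2
      · intro h
        refine ⟨⟨fun h1 => hq.2 ?_, fun h1 => hq.2 ?_⟩, h⟩
        · rw [← h, h1, map_one]
        · rw [← h, MonoidHom.mem_ker.1 h1]
  have h2 : ∀ q ∈ univ.filter (fun q : Q => q ≠ 1),
      ∑ g ∈ univ.filter (fun g => r g = q), min (s g : ℝ) u =
        (Nat.card r.ker : ℝ) * min (sQ q : ℝ) (hb_F s r.ker u / (Nat.card r.ker : ℝ)) := by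
    intro q hq
    rw [mem_filter] at hq
    obtain ⟨g, rfl⟩ := hr q
    obtain ⟨g0, _, h4, _, h6⟩ := hC G s hRF r.ker g (fun h => hq.2 (MonoidHom.mem_ker.1 h))
    have h7 : r g0 = r g := by
      rw [MonoidHom.mem_ker, map_mul, map_inv, inv_mul_eq_one] at h4
      exact h4.symm
    have h8 := (hb_coset s sQ r hs g0 (by rw [h7]; exact hq.2) h6).2 u
    rw [h7] at h8
    rw [h8, mul_min_of_nonneg _ _ hJ0.le, mul_div_cancel₀ _ hJ0.ne']
  unfold phi
  rw [h1, sum_congr rfl h2, ← mul_sum, hcard]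
  have h3 : u + (∑ j ∈ hb_J1 r.ker, min (s j : ℝ) u +
      (Nat.card r.ker : ℝ) * ∑ q ∈ univ.filter (fun q : Q => q ≠ 1),
        min (sQ q : ℝ) (hb_F s r.ker u / (Nat.card r.ker : ℝ))) =
      (Nat.card r.ker : ℝ) * (hb_F s r.ker u / (Nat.card r.ker : ℝ) +
        ∑ q ∈ univ.filter (fun q : Q => q ≠ 1),
          min (sQ q : ℝ) (hb_F s r.ker u / (Nat.card r.ker : ℝ))) := by
    rw [mul_add, mul_div_cancel₀ _ hJ0.ne', ← add_assoc]
    rfl
  rw [h3, mul_div_mul_left _ _ hJ0.ne']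

open scoped Classical in
theorem hb_cond {Q : Type u} [Group Q] [Fintype Q] (sQ : Q → ℕ) :
    phi sQ (x0 sQ : ℝ) = cond sQ := by
  unfold phi cond
  congr 1
  rw [add_comm]
  congr 1
  unfold S1
  rw [Nat.cast_sum]
  refine sum_congr rfl fun q hq => ?_
  refine min_eq_left (Nat.cast_le.2 ?_)
  unfold x0
  exact le_sup (f := sQ) hq

theorem st_HB (hC : ST_COS.{u}) (hP : ST_PHM.{u}) : ST_HB.{u} := by
  classical
  intro G Q _ _ _ _ s sQ r hr hRF _ hs hQ
  have hJ0 : (0 : ℝ) < (Nat.card r.ker : ℝ) := Nat.cast_pos.2 Nat.card_pos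
  have hmono : ∀ {G' : Type u} [Group G'] [Fintype G'] (s' : G' → ℕ) (a b : ℝ), 0 ≤ a → a ≤ b →
      phi s' a ≤ phi s' b := by
    intro G' _ _ s' a b ha hab
    rcases hab.lt_or_eq with h | h
    · exact (hP G' s' a b ha h).le
    · rw [h]
  have key : ∀ g, r g ≠ 1 → ∃ g0, r g0 = r g ∧ s g ≤ s g0 ∧
      phi s (s g0 : ℝ) = phi sQ (sQ (r g) : ℝ) := by
    intro g hg
    obtain ⟨g0, h3, h4, h5, h6⟩ := hC G s hRF r.ker g (fun h => hg (MonoidHom.mem_ker.1 h))
    have h7 : r g0 = r g := by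
      have h4' := h4
      rw [MonoidHom.mem_ker, map_mul, map_inv, inv_mul_eq_one] at h4'
      exact h4'.symm
    refine ⟨g0, h7, ?_, ?_⟩
    · have h8 : g0⁻¹ * g ∈ r.ker := by
        have := r.ker.inv_mem h4
        rwa [mul_inv_rev, inv_inv] at this
      have h9 := h5 _ h8
      rwa [mul_inv_cancel_left] at h9
    · have h8 := (hb_coset s sQ r hs g0 (by rw [h7]; exact hg) h6).1
      rw [hb_phi hC s sQ r hr hRF hs, ← h8, mul_div_cancel_left₀ _ hJ0.ne', h7]
  constructor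
  · intro g hg
    obtain ⟨g0, _, h2, h3⟩ := key g hg
    calc phi s (s g : ℝ) ≤ phi s (s g0 : ℝ) :=
          hmono s _ _ (Nat.cast_nonneg _) (Nat.cast_le.2 h2)
      _ = phi sQ (sQ (r g) : ℝ) := h3
      _ ≤ phi sQ (x0 sQ : ℝ) := hmono sQ _ _ (Nat.cast_nonneg _) (Nat.cast_le.2
          (le_sup (f := sQ) (mem_filter.2 ⟨mem_univ _, hg⟩)))
      _ = cond sQ := hb_cond sQ
  · obtain ⟨q, hq⟩ := exists_ne (1 : Q)
    obtain ⟨q0, hq0, hq1⟩ := exists_mem_eq_sup (univ.filter (fun q : Q => q ≠ 1))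
      ⟨q, mem_filter.2 ⟨mem_univ _, hq⟩⟩ sQ
    obtain ⟨g, rfl⟩ := hr q0
    have hg : r g ≠ 1 := (mem_filter.1 hq0).2
    obtain ⟨g0, h1, _, h3⟩ := key g hg
    refine ⟨g0, by rw [h1]; exact hg, ?_⟩
    rw [h3, ← hb_cond sQ]
    congr 1
    exact_mod_cast hq1.symm

end Pool.Agent.Helper21.DN
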