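import Pool.Agent.Helper21.DN.Stmts

set_option autoImplicit false

/-! # A `P`-extension containing `w` with `w ^ q - w = 1 / t` (module L2) -/

namespace Pool.Agent.Helper21.DN

universe u

theorem st_L2 (h1 : ST_L1.{u}) (h2 : ST_EMB.{u}) : ST_L2.{u} := by
  intro p _ k _ _ _ g hg P _ _ hP ι hadd hfix hsurj
  obtain ⟨L, _, _, w, hfin, hgal, hw, ha, hb, hc⟩ := h1 p k g hg
  have hex : ∀ x : P, ∃ σ : L ≃ₐ[LaurentSeries k] L,
      σ w = w + algebraMap (LaurentSeries k) L (κ0 k (ι x)) := fun x => hb (ι x) (hfix x)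
  choose r hr using hex
  have hι1 : ι 1 = 0 := by
    have := hadd 1 1
    rw [mul_one] at this
    exact left_eq_add.1 this
  have hr1 : r 1 = 1 := by
    refine hc _ _ ?_
    rw [hr, hι1, map_zero, map_zero, add_zero, AlgEquiv.one_apply]
  have hrm : ∀ x y, r (x * y) = r x * r y := by
    intro x y
    refine hc _ _ ?_
    rw [AlgEquiv.mul_apply, hr, hr, map_add, hr, AlgEquiv.commutes, hadd, map_add, map_add,
      add_assoc]
  let R : P →* (L ≃ₐ[LaurentSeries k] L) := { toFun := r, map_one' := hr1, map_mul' := hrm }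
  have hR : Function.Surjective R := by
    intro σ
    obtain ⟨c, hc1, hc2⟩ := ha σ
    obtain ⟨x, hx⟩ := hsurj c hc1
    refine ⟨x, hc _ _ ?_⟩
    change r x w = σ w
    rw [hr, hc2, hx]
  obtain ⟨M, _, _, _, _, hM1, hM2, i, hi⟩ := h2 p k L P hP R hR
  refine ⟨M, inferInstance, inferInstance, algebraMap L M w, hM1, hM2, i, ?_, ?_⟩
  · rw [← map_pow, ← map_sub, hw, ← IsScalarTower.algebraMap_apply]
  · intro σ
    rw [hi]
    change algebraMap L M (r (i σ) w) = _
    rw [hr, map_add, ← IsScalarTower.algebraMap_apply]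

end Pool.Agent.Helper21.DN
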