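import Pool.Agent.Helper21.DN.Stmts2

set_option autoImplicit false

/-! # M(P) for groups with an abelian subgroup (module ABI) -/

namespace Pool.Agent.Helper21.DN

theorem abi_min {p : ℕ} [Fact p.Prime] {P : Type} [Group P] [Finite P] (hP : IsPGroup p P)
    (A : Subgroup P) (hA : ∀ a ∈ A, ∀ a' ∈ A, a * a' = a' * a) (z : P) (hz : orderOf z = p) :
    minIndex z ∣ A.index := by
  have hp : p.Prime := Fact.out
  have hAA : ⁅A, A⁆ = ⊥ := by
    rw [Subgroup.commutator_eq_bot_iff_le_centralizer]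
    intro a ha
    rw [Subgroup.mem_centralizer_iff]
    intro b hb
    exact hA b hb a ha
  have hzA : z ∉ ⁅A, A⁆ := by
    rw [hAA, Subgroup.mem_bot]
    intro h
    rw [h, orderOf_one] at hz
    exact hp.one_lt.ne hz
  have hmem : A.index ∈ {m | ∃ H : Subgroup P, z ∉ ⁅H, H⁆ ∧ m = H.index} := ⟨A, hzA, rfl⟩
  have hle : minIndex z ≤ A.index := Nat.sInf_le hmem
  obtain ⟨H, -, hH⟩ := Nat.sInf_mem (⟨_, hmem⟩ : Set.Nonempty _)
  change minIndex z = H.index at hH
  obtain ⟨n, hn⟩ := hP.index H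
  obtain ⟨a, ha⟩ := hP.index A
  rw [hH, hn, ha] at hle
  rw [hH, hn, ha]
  exact pow_dvd_pow p ((Nat.pow_le_pow_iff_right hp.one_lt).1 hle)

theorem st_ABI : ST_ABI := by
  intro p _ P _ _ hP hnt A hA
  have hp : p.Prime := Fact.out
  have := hP.center_nontrivial
  have hc : IsPGroup p (Subgroup.center P) := hP.to_subgroup _
  obtain ⟨n, hn0, hn⟩ := hc.nontrivial_iff_card.1 inferInstance
  obtain ⟨z, hz⟩ := exists_prime_orderOf_dvd_card' (G := Subgroup.center P) p
    (by rw [hn]; exact dvd_pow_self p hn0.ne')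
  have hne : {m | ∃ z : P, z ∈ Subgroup.center P ∧ orderOf z = p ∧ m = minIndex z}.Nonempty :=
    ⟨minIndex (z : P), z, z.2, by rw [Subgroup.orderOf_coe, hz], rfl⟩
  have hbd : BddAbove {m | ∃ z : P, z ∈ Subgroup.center P ∧ orderOf z = p ∧ m = minIndex z} := by
    refine ⟨A.index, ?_⟩
    rintro m ⟨z, -, hz, rfl⟩
    exact Nat.le_of_dvd (Nat.pos_of_ne_zero Subgroup.FiniteIndex.index_ne_zero)
      (abi_min hP A hA z hz)
  obtain ⟨z, -, hz, h⟩ := Nat.sSup_mem hne hbd
  change MP p P = minIndex z at h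
  rw [h]
  exact abi_min hP A hA z hz

end Pool.Agent.Helper21.DN
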